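import Pool.Agent.Helper12.XG.St2
import Pool.Agent.Helper95.GS.M_D12

set_option autoImplicit false

/-! Project XG, module TWN: numerical choice of the parameters, explicit in `c`. -/

namespace Pool.Agent.Helper37.XG

open Finset Polynomial Pool.Agent.Helper12.XG Pool.Agent.Helper14.GS Pool.Agent.Helper95.GS

theorem hTWN : Pool.Agent.Helper12.XG.StTWN := by
  intro c₀ hc₀
  obtain ⟨k₀, hk₀⟩ : ∃ k₀, k₀ = 10 * (c₀ + 2) := ⟨_, rfl⟩
  refine ⟨648000 * k₀ ^ 2, ?_⟩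
  intro c hc
  obtain ⟨C₁, hC₁⟩ : ∃ C₁, C₁ = 90 * c := ⟨_, rfl⟩
  obtain ⟨L, hL⟩ : ∃ L, L = 80 * C₁ * k₀ := ⟨_, rfl⟩
  obtain ⟨T, hT⟩ : ∃ T, T = C₁ * L := ⟨_, rfl⟩
  obtain ⟨k, hk⟩ : ∃ k, k = C₁ ^ 2 * k₀ := ⟨_, rfl⟩
  have hk30 : 30 ≤ k₀ := by omega
  have hC90 : 90 ≤ C₁ := by omega
  have hL1 : 1 ≤ L := by
    rw [hL]
    have : 0 < 80 * C₁ * k₀ := by positivity
    omega
  have hT1 : 1 ≤ T := by
    rw [hT]
    have : 0 < C₁ * L := by positivity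
    omega
  have hk1 : 1 ≤ k := by
    rw [hk]
    have : 0 < C₁ ^ 2 * k₀ := by positivity
    omega
  have hCL : C₁ ≤ L := by
    rw [hL]
    nlinarith
  have hκ : k₀ * T ≤ 648000 * k₀ ^ 2 * c ^ 2 := by
    rw [hT, hL, hC₁]
    apply le_of_eq
    ring
  refine ⟨L, T, k, k₀, k₀ * T, 2 * k * L ^ 2, hκ, hL1, hT1, hk1, ?_⟩
  intro n hn
  have hLL : L ≤ L ^ 2 := by nlinarith
  have hkL : L ^ 2 ≤ k * L ^ 2 := Nat.le_mul_of_pos_left _ hk1
  have hL2n : L ^ 2 ≤ n := by nlinarith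
  have h2Ln : 2 * L ≤ n := by nlinarith
  have hkLn : k * L ^ 2 ≤ n := by nlinarith
  have hn1 : 1 ≤ n := le_trans hL1 (le_trans hLL hL2n)
  have hTK : T ≤ k₀ * T * n := by
    calc T = 1 * T * 1 := by ring
      _ ≤ k₀ * T * n := Nat.mul_le_mul (Nat.mul_le_mul_right T (by omega)) hn1
  obtain ⟨K, hK⟩ : ∃ K, T + K = k₀ * T * n := ⟨k₀ * T * n - T, by omega⟩
  have hMe : T * (T + K) = k * n * L ^ 2 := by
    rw [hK, hk, hT]; ring
  have hS : 2 * k₀ * n ≤ (2 * k₀ + 1) * n + 1 - L ^ 2 := by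
    have : (2 * k₀ + 1) * n = 2 * k₀ * n + n := by ring
    omega
  refine ⟨K, by omega, ?_, ?_, ?_, hMe.le, ?_⟩
  · nlinarith
  · calc 2 * L ^ 2 * (k * n) = 2 * k₀ * n * T ^ 2 := by rw [hk, hT]; ring
      _ ≤ _ := Nat.mul_le_mul_right _ hS
  · calc 2 * (k * n) = 2 * k₀ * n * (C₁ * C₁) := by rw [hk]; ring
      _ ≤ 2 * k₀ * n * (C₁ * L) := Nat.mul_le_mul_left _ (Nat.mul_le_mul_left _ hCL)
      _ = 2 * k₀ * n * T := by rw [hT]
      _ ≤ _ := Nat.mul_le_mul_right _ hS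
  intro B d hB1 hB hd1 hd
  obtain ⟨M, hM⟩ : ∃ M, M = k * n * L ^ 2 := ⟨_, rfl⟩
  rw [← hM]
  have hNat := nat_part c c₀ k₀ C₁ L T k n K M hc hc₀ hk₀ hC₁ hL hT hk hn1 (by rw [hM, hMe]) hK
  have hexp1 : (2 : ℝ) ≤ Real.exp 1 := by
    have := Real.add_one_le_exp (1 : ℝ)
    linarith
  have hexp3 : Real.exp 1 ≤ 3 := by
    have := Real.exp_one_lt_d9
    linarith
  have e1 : d ^ (T * M) ≤ Real.exp (((T * M : ℕ) : ℝ) * (c₀ * n)) := by
    rw [Real.exp_nat_mul]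
    exact pow_le_pow_left₀ (by linarith) hd _
  have hnr : (n : ℝ) ≤ Real.exp n := nat_le_exp n
  have e2 : ((M.factorial : ℕ) : ℝ) ≤ Real.exp ((M : ℝ) * (2 * n)) := by
    rw [Real.exp_nat_mul]
    have h1 : ((M.factorial : ℕ) : ℝ) ≤ ((M ^ M : ℕ) : ℝ) := by exact_mod_cast Nat.factorial_le_pow M
    refine h1.trans ?_
    push_cast
    apply pow_le_pow_left₀ (by positivity)
    have h2 : M ≤ n * n := by
      rw [hM]
      calc k * n * L ^ 2 = n * (k * L ^ 2) := by ring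
        _ ≤ n * n := Nat.mul_le_mul_left _ hkLn
    calc (M : ℝ) ≤ ((n * n : ℕ) : ℝ) := by exact_mod_cast h2
      _ = (n : ℝ) * n := by push_cast; ring
      _ ≤ Real.exp n * Real.exp n := mul_le_mul hnr hnr (by positivity) (Real.exp_pos _).le
      _ = Real.exp (2 * n) := by rw [← Real.exp_add]; ring_nf
  have e3 : (2 : ℝ) ≤ Real.exp n := by
    refine hexp1.trans (Real.exp_le_exp.2 ?_)
    exact_mod_cast hn1
  have e4 : (2 : ℝ) ^ ((3 * ((2 * k₀ + 1) * n) + 1 + n) * k) ≤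
      Real.exp (((3 * ((2 * k₀ + 1) * n) + 1 + n) * k : ℕ) : ℝ) := by
    have : Real.exp (((3 * ((2 * k₀ + 1) * n) + 1 + n) * k : ℕ) : ℝ) =
        Real.exp 1 ^ ((3 * ((2 * k₀ + 1) * n) + 1 + n) * k) := by
      rw [← Real.exp_nat_mul, mul_one]
    rw [this]
    exact pow_le_pow_left₀ (by norm_num) hexp1 _
  have e5 : (2 * (L : ℝ) * B) ^ T ≤ Real.exp ((T : ℝ) * (2 * n)) := by
    rw [Real.exp_nat_mul]
    apply pow_le_pow_left₀ (by positivity)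
    have h1 : (2 * (L : ℝ)) ≤ n := by exact_mod_cast h2Ln
    calc 2 * (L : ℝ) * B ≤ Real.exp n * Real.exp n :=
          mul_le_mul (h1.trans hnr) hB (by linarith) (Real.exp_pos _).le
      _ = Real.exp (2 * n) := by rw [← Real.exp_add]; ring_nf
  have e6 : 2 * ((2 : ℝ) ^ ((3 * ((2 * k₀ + 1) * n) + 1 + n) * k) * (2 * (L : ℝ) * B) ^ T *
      Real.exp ((L : ℝ) * c * (3 * ((2 * k₀ + 1) * n)))) ≤
      Real.exp ((n : ℝ) + ((((3 * ((2 * k₀ + 1) * n) + 1 + n) * k : ℕ) : ℝ) + (T : ℝ) * (2 * n) +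
        (L : ℝ) * c * (3 * ((2 * k₀ + 1) * n)))) := by
    rw [Real.exp_add, Real.exp_add, Real.exp_add]
    apply mul_le_mul e3 _ (by positivity) (Real.exp_pos _).le
    apply mul_le_mul_of_nonneg_right _ (Real.exp_pos _).le
    exact mul_le_mul e4 e5 (by positivity) (Real.exp_pos _).le
  have e7 := pow_le_pow_left₀ (by positivity) e6 M
  rw [← Real.exp_nat_mul] at e7
  have e8 : d ^ (T * M) * ((M.factorial : ℕ) : ℝ) *
      (2 * ((2 : ℝ) ^ ((3 * ((2 * k₀ + 1) * n) + 1 + n) * k) * (2 * (L : ℝ) * B) ^ T *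
      Real.exp ((L : ℝ) * c * (3 * ((2 * k₀ + 1) * n))))) ^ M ≤
      Real.exp ((M * (T * c₀ * n + 2 * n + n + (3 * ((2 * k₀ + 1) * n) + 1 + n) * k + 2 * n * T +
      L * c * (3 * ((2 * k₀ + 1) * n))) : ℕ) : ℝ) := by
    have : Real.exp ((M * (T * c₀ * n + 2 * n + n + (3 * ((2 * k₀ + 1) * n) + 1 + n) * k + 2 * n * T +
      L * c * (3 * ((2 * k₀ + 1) * n))) : ℕ) : ℝ) =
        Real.exp (((T * M : ℕ) : ℝ) * (c₀ * n)) * Real.exp ((M : ℝ) * (2 * n)) *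
        Real.exp ((M : ℝ) * ((n : ℝ) + ((((3 * ((2 * k₀ + 1) * n) + 1 + n) * k : ℕ) : ℝ) +
          (T : ℝ) * (2 * n) + (L : ℝ) * c * (3 * ((2 * k₀ + 1) * n))))) := by
      rw [← Real.exp_add, ← Real.exp_add]
      congr 1
      push_cast
      ring
    rw [this]
    apply mul_le_mul (mul_le_mul e1 e2 (by positivity) (Real.exp_pos _).le) e7 (by positivity)
    positivity
  refine lt_of_le_of_lt e8 ?_
  have e9 : Real.exp ((M * (T * c₀ * n + 2 * n + n + (3 * ((2 * k₀ + 1) * n) + 1 + n) * k + 2 * n * T +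
      L * c * (3 * ((2 * k₀ + 1) * n))) : ℕ) : ℝ) < Real.exp ((T * (K * (K - 1) / 2) : ℕ) : ℝ) := by
    apply Real.exp_lt_exp.2
    exact_mod_cast hNat
  refine lt_of_lt_of_le e9 ?_
  have e10 : Real.exp ((T * (K * (K - 1) / 2) : ℕ) : ℝ) = Real.exp 1 ^ (T * (K * (K - 1) / 2)) := by
    rw [← Real.exp_nat_mul, mul_one]
  rw [e10]
  exact pow_le_pow_left₀ (Real.exp_pos _).le hexp3 _

end Pool.Agent.Helper37.XG
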